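import Pool.Agent.Lib.MP_9599cf_nt.DatK

/-!
# MP_9599cf_nt: Salem numbers whose trace field is completely split at a small prime
-/

set_option autoImplicit false

namespace SalemSp

open Polynomial IntermediateField NumberField SalemAb

/-- The prime `p` splits completely in the field `ℚ(β)`: `p` divides `x ^ p - x` for every
algebraic integer `x` of this field. -/
def SplitsCompletely (p : ℕ) (β : ℝ) : Prop :=
  ∀ x : 𝓞 ℚ⟮β⟯, (p : 𝓞 ℚ⟮β⟯) ∣ x ^ p - x

/-- The auxiliary polynomial for `p = 2`. -/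
noncomputable def F2 : ℤ[X] := (X ^ 2 - 4) * (X ^ 2 - 1) ^ 2 * X ^ 2

/-- The auxiliary polynomial for `p = 3`. -/
noncomputable def F3 : ℤ[X] := X ^ 3 * (X ^ 2 - 1) * (X ^ 2 - 4) ^ 2

theorem aeval_F2 {R : Type*} [CommRing R] (x : R) :
    aeval x F2 = (x ^ 2 - 4) * (x ^ 2 - 1) ^ 2 * x ^ 2 := by
  simp only [F2, map_sub, map_mul, map_pow, aeval_X, map_ofNat, map_one]

theorem aeval_F3 {R : Type*} [CommRing R] (x : R) :
    aeval x F3 = x ^ 3 * (x ^ 2 - 1) * (x ^ 2 - 4) ^ 2 := by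
  simp only [F3, map_sub, map_mul, map_pow, aeval_X, map_ofNat, map_one]

end SalemSp
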