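import Pool.Agent.Lib.MP_9599cf_ntS.ConjC

/-! # The norm inequality -/

set_option autoImplicit false

namespace SalemSp

open Polynomial IntermediateField NumberField SalemAb

/-- PROOF. Let `K = ℚ⟮β⟯`, `β = t + t⁻¹`, `b = genO _` the integer `β` of `K`, `aeval b f = M z` with `z : 𝓞 K`; `z ≠ 0`, so
`|Algebra.norm ℤ z| ≥ 1` and `|norm ℚ (aeval b f : K)| = M ^ d |norm z| ≥ M ^ d` (`d = finrank ℚ K = natDegree (minpoly ℚ β)`,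
`IntermediateField.adjoin.finrank`). By `Algebra.norm_eq_prod_embeddings` this norm is the product over the `d` embeddings
`σ : K →ₐ[ℚ] ℂ` of `σ (f(β)) = f(σ β)`. `σ β` is a complex root of `minpoly ℚ β`; by `trace_conj_complex` it is real, equal to `β`
(only for the inclusion `σ`, because `β` generates `K`: `IntermediateField.algHom_ext_of_eq_adjoin` or `adjoin_algHom_ext`) or of
absolute value at most two, where `|f| ≤ C`. -/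
theorem prod_bound {t : ℝ} (h : IsSalem t) (f : ℤ[X]) (M : ℕ)
    (hM : (M : 𝓞 ℚ⟮t + t⁻¹⟯) ∣ aeval (genO (isIntegral_trace h)) f)
    (hf : aeval (t + t⁻¹) f ≠ 0) (C : ℝ) (hC : ∀ x : ℝ, |x| ≤ 2 → |aeval x f| ≤ C) :
    (M : ℝ) ^ (minpoly ℚ (t + t⁻¹)).natDegree ≤
      |aeval (t + t⁻¹) f| * C ^ ((minpoly ℚ (t + t⁻¹)).natDegree - 1) := by
  classical
  have hint : IsIntegral ℚ (t + t⁻¹) := (isIntegral_trace h).tower_top
  have hfd : FiniteDimensional ℚ ℚ⟮t + t⁻¹⟯ :=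
    IntermediateField.adjoin.finiteDimensional hint
  have : NumberField ℚ⟮t + t⁻¹⟯ := { to_charZero := inferInstance, to_finiteDimensional := hfd }
  have hC0 : 0 ≤ C := (abs_nonneg _).trans (hC 0 (by norm_num))
  have hdeg : Module.finrank ℚ ℚ⟮t + t⁻¹⟯ = (minpoly ℚ (t + t⁻¹)).natDegree :=
    IntermediateField.adjoin.finrank hint
  have hcard : Fintype.card (ℚ⟮t + t⁻¹⟯ →ₐ[ℚ] ℂ) = (minpoly ℚ (t + t⁻¹)).natDegree := by
    rw [AlgHom.card, hdeg]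
  obtain ⟨z, hz⟩ := hM
  -- the value of `f` at the generator
  have hw : ((aeval (genO (isIntegral_trace h)) f : 𝓞 ℚ⟮t + t⁻¹⟯) : ℚ⟮t + t⁻¹⟯) =
      aeval (AdjoinSimple.gen ℚ (t + t⁻¹)) f := by
    show algebraMap (𝓞 ℚ⟮t + t⁻¹⟯) ℚ⟮t + t⁻¹⟯ (aeval (genO (isIntegral_trace h)) f) = _
    rw [← aeval_algebraMap_apply]
    rfl
  have hval : ∀ σ : ℚ⟮t + t⁻¹⟯ →ₐ[ℚ] ℂ, σ (aeval (AdjoinSimple.gen ℚ (t + t⁻¹)) f) =
      aeval (σ (AdjoinSimple.gen ℚ (t + t⁻¹))) f := by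
    intro σ
    have := hom_eval₂ f (algebraMap ℤ ℚ⟮t + t⁻¹⟯) (σ : ℚ⟮t + t⁻¹⟯ →+* ℂ)
      (AdjoinSimple.gen ℚ (t + t⁻¹))
    rw [aeval_def, aeval_def]
    refine this.trans ?_
    congr 1
    exact RingHom.ext_int _ _
  have hreal : ∀ r : ℝ, aeval ((r : ℝ) : ℂ) f = ((aeval r f : ℝ) : ℂ) := by
    intro r
    have := aeval_algebraMap_apply ℂ r f
    exact this
  -- the inclusion
  set σ₀ : ℚ⟮t + t⁻¹⟯ →ₐ[ℚ] ℂ := (IsScalarTower.toAlgHom ℚ ℝ ℂ).comp ℚ⟮t + t⁻¹⟯.val with hσ₀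
  have h0g : σ₀ (AdjoinSimple.gen ℚ (t + t⁻¹)) = ((t + t⁻¹ : ℝ) : ℂ) := by
    rw [hσ₀]
    show ((( AdjoinSimple.gen ℚ (t + t⁻¹) : ℚ⟮t + t⁻¹⟯) : ℝ) : ℂ) = _
    rw [AdjoinSimple.coe_gen]
  have hb0 : ‖σ₀ (aeval (AdjoinSimple.gen ℚ (t + t⁻¹)) f)‖ = |aeval (t + t⁻¹) f| := by
    rw [hval, h0g, hreal, Complex.norm_real, Real.norm_eq_abs]
  have hb : ∀ σ : ℚ⟮t + t⁻¹⟯ →ₐ[ℚ] ℂ, σ ≠ σ₀ →
      ‖σ (aeval (AdjoinSimple.gen ℚ (t + t⁻¹)) f)‖ ≤ C := by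
    intro σ hσ
    have h3 : minpoly ℚ (t + t⁻¹) = minpoly ℚ (AdjoinSimple.gen ℚ (t + t⁻¹)) :=
      (minpoly_gen ℚ (t + t⁻¹)).symm
    have h2 : aeval (σ (AdjoinSimple.gen ℚ (t + t⁻¹))) (minpoly ℚ (t + t⁻¹)) = 0 := by
      rw [h3, aeval_algHom_apply, minpoly.aeval, map_zero]
    obtain ⟨r, hr, h5⟩ := trace_conj_complex h _ h2
    rcases h5 with h5 | h5
    · exfalso
      apply hσ
      apply adjoin_algHom_ext
      intro x hx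
      rw [Set.mem_singleton_iff] at hx
      subst hx
      show σ (AdjoinSimple.gen ℚ (t + t⁻¹)) = σ₀ (AdjoinSimple.gen ℚ (t + t⁻¹))
      rw [h0g, hr, h5]
    · rw [hval, hr, hreal, Complex.norm_real, Real.norm_eq_abs]
      exact hC r h5
  -- the norm of `z`
  have hz0 : z ≠ 0 := by
    rintro rfl
    rw [mul_zero] at hz
    apply hf
    have h1 : aeval (AdjoinSimple.gen ℚ (t + t⁻¹)) f = 0 := by
      rw [← hw, hz]
      exact map_zero (algebraMap (𝓞 ℚ⟮t + t⁻¹⟯) ℚ⟮t + t⁻¹⟯)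
    have h2 := aeval_algebraMap_apply ℝ (AdjoinSimple.gen ℚ (t + t⁻¹)) f
    rw [h1, map_zero] at h2
    have h4 : (algebraMap ℚ⟮t + t⁻¹⟯ ℝ) (AdjoinSimple.gen ℚ (t + t⁻¹)) = t + t⁻¹ :=
      AdjoinSimple.coe_gen ℚ _
    rw [h4] at h2
    exact h2
  have hnz : (1 : ℝ) ≤ |((Algebra.norm ℤ z : ℤ) : ℝ)| := by
    have h1 : Algebra.norm ℤ z ≠ 0 := Algebra.norm_ne_zero_iff.2 hz0
    have h2 := Int.one_le_abs h1
    exact_mod_cast h2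
  -- the norm of the value
  have hN : Algebra.norm ℚ (aeval (AdjoinSimple.gen ℚ (t + t⁻¹)) f) =
      (M : ℚ) ^ (minpoly ℚ (t + t⁻¹)).natDegree * (Algebra.norm ℤ z : ℤ) := by
    rw [← hw, hz, Algebra.coe_norm_int, ← hdeg]
    have h1 : (((M : 𝓞 ℚ⟮t + t⁻¹⟯) * z : 𝓞 ℚ⟮t + t⁻¹⟯) : ℚ⟮t + t⁻¹⟯) =
        algebraMap ℚ ℚ⟮t + t⁻¹⟯ (M : ℚ) * (z : ℚ⟮t + t⁻¹⟯) := by
      rw [map_natCast]
      simp
    rw [h1, map_mul, Algebra.norm_algebraMap]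
  have hprod := Algebra.norm_eq_prod_embeddings ℚ ℂ (aeval (AdjoinSimple.gen ℚ (t + t⁻¹)) f)
  rw [hN] at hprod
  have hnorm := congrArg norm hprod
  rw [norm_prod, ← Finset.mul_prod_erase Finset.univ _ (Finset.mem_univ σ₀), hb0] at hnorm
  have hle : ∏ σ ∈ Finset.univ.erase σ₀, ‖σ (aeval (AdjoinSimple.gen ℚ (t + t⁻¹)) f)‖ ≤
      C ^ ((minpoly ℚ (t + t⁻¹)).natDegree - 1) := by
    refine (Finset.prod_le_prod (fun _ _ => norm_nonneg _)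
      (fun σ hσ => hb σ (Finset.ne_of_mem_erase hσ))).trans (le_of_eq ?_)
    rw [Finset.prod_const, Finset.card_erase_of_mem (Finset.mem_univ _), Finset.card_univ, hcard]
  have hl : ‖algebraMap ℚ ℂ ((M : ℚ) ^ (minpoly ℚ (t + t⁻¹)).natDegree *
      (Algebra.norm ℤ z : ℤ))‖ =
      (M : ℝ) ^ (minpoly ℚ (t + t⁻¹)).natDegree * |((Algebra.norm ℤ z : ℤ) : ℝ)| := by
    rw [map_mul, map_pow, map_natCast, map_intCast, norm_mul, norm_pow, Complex.norm_natCast,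
      Complex.norm_intCast]
  rw [hl] at hnorm
  calc (M : ℝ) ^ (minpoly ℚ (t + t⁻¹)).natDegree
      ≤ (M : ℝ) ^ (minpoly ℚ (t + t⁻¹)).natDegree * |((Algebra.norm ℤ z : ℤ) : ℝ)| :=
        le_mul_of_one_le_right (by positivity) hnz
    _ = |aeval (t + t⁻¹) f| *
        ∏ σ ∈ Finset.univ.erase σ₀, ‖σ (aeval (AdjoinSimple.gen ℚ (t + t⁻¹)) f)‖ := hnorm
    _ ≤ |aeval (t + t⁻¹) f| * C ^ ((minpoly ℚ (t + t⁻¹)).natDegree - 1) :=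
        mul_le_mul_of_nonneg_left hle (abs_nonneg _)

end SalemSp
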