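import Pool.Agent.Lib.MP_9599cf_ntS.Base

/-! # Complex conjugates of Salem traces are real -/

set_option autoImplicit false

namespace SalemSp

open Polynomial IntermediateField NumberField SalemAb

/-- PROOF. As the proof of `trace_conj` in `Pool/Agent/Lib/MP_9599cf_nt/SalemB.lean` (copy it, with `y` complex): `y = z + z⁻¹`
for a root `z` of `minpoly ℚ t`; by `salem_roots` `z = t` or `z = t⁻¹` (then `y = t + t⁻¹`) or `‖z‖ = 1`: then `z⁻¹` is the
complex conjugate of `z`, so `y = 2 re z` is real, of absolute value at most two. -/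
theorem trace_conj_complex {t : ℝ} (h : IsSalem t) (y : ℂ)
    (hy : aeval y (minpoly ℚ (t + t⁻¹)) = 0) :
    ∃ r : ℝ, y = (r : ℂ) ∧ (r = t + t⁻¹ ∨ |r| ≤ 2) := by
  have hint : IsIntegral ℚ t := h.1.tower_top
  have halg : Algebra.IsAlgebraic ℚ (IntermediateField.adjoin ℚ {t}) :=
    IntermediateField.isAlgebraic_adjoin_simple hint
  let g : IntermediateField.adjoin ℚ {t} := IntermediateField.AdjoinSimple.gen ℚ t
  have hg : algebraMap (IntermediateField.adjoin ℚ {t}) ℝ g = t :=
    IntermediateField.AdjoinSimple.algebraMap_gen ℚ t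
  have hx : algebraMap (IntermediateField.adjoin ℚ {t}) ℝ (g + g⁻¹) = t + t⁻¹ := by
    rw [map_add, map_inv₀, hg]
  have hmin : minpoly ℚ (g + g⁻¹) = minpoly ℚ (t + t⁻¹) := by
    rw [← hx]
    exact (minpoly.algebraMap_eq (FaithfulSMul.algebraMap_injective _ _) _).symm
  have hyC : aeval y (minpoly ℚ (g + g⁻¹)) = 0 := by
    rw [hmin]
    exact hy
  obtain ⟨ψ, hψ⟩ := IntermediateField.exists_algHom_of_splits_of_aeval
    (F := ℚ) (E := IntermediateField.adjoin ℚ {t}) (K := ℂ)
    (fun s => ⟨(halg.isAlgebraic s).isIntegral, IsAlgClosed.splits _⟩) hyC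
  have hz : aeval (ψ g) (minpoly ℚ t) = 0 := by
    have h1 : minpoly ℚ g = minpoly ℚ t := IntermediateField.minpoly_gen ℚ t
    rw [← h1, aeval_algHom_apply, minpoly.aeval, map_zero]
  have hyz : y = ψ g + (ψ g)⁻¹ := by
    rw [← hψ, map_add, map_inv₀]
  rcases salem_roots h (ψ g) hz with h1 | h1 | h1
  · refine ⟨t + t⁻¹, ?_, Or.inl rfl⟩
    rw [h1] at hyz
    rw [hyz]
    push_cast
    rfl
  · refine ⟨t + t⁻¹, ?_, Or.inl rfl⟩
    rw [h1, inv_inv] at hyz
    rw [hyz]
    push_cast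
    ring
  · refine ⟨2 * (ψ g).re, ?_, Or.inr ?_⟩
    · rw [hyz, Complex.inv_eq_conj h1, Complex.add_conj]
    · rw [abs_mul, abs_two]
      have h2 := Complex.abs_re_le_norm (ψ g)
      rw [h1] at h2
      linarith

end SalemSp
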