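import Pool.Agent.Lib.MP_9599cf_ntS.Base

/-! # Divisibility of the auxiliary polynomials -/

set_option autoImplicit false

namespace SalemSp

open Polynomial

/-- PROOF. `x ^ 2 + x = (-x) ^ 2 - (-x) = 2 w`, `x ^ 2 - x = 2 w'`, `w ^ 2 - w = 2 v`, `w' ^ 2 - w' = 2 v'`. Then
`(x - 1) x (x + 1) (x + 2) = (x ^ 2 + x) (x ^ 2 + x - 2) = 2 w (2 w - 2) = 8 v`, in the same way
`(x - 2) (x - 1) x (x + 1) = 8 v'`, and the product of the two is `F2 (x) = 64 v v'`. -/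
theorem dvd_F2 {A : Type} [CommRing A] (h : ∀ x : A, ((2 : ℕ) : A) ∣ x ^ 2 - x) (x : A) :
    ((64 : ℕ) : A) ∣ aeval x F2 := by
  obtain ⟨w, hw⟩ := h (-x)
  obtain ⟨w', hw'⟩ := h x
  obtain ⟨v, hv⟩ := h w
  obtain ⟨v', hv'⟩ := h w'
  push_cast at hw hw' hv hv'
  refine ⟨v * v', ?_⟩
  have e : aeval x F2 = (x ^ 2 - 4) * (x ^ 2 - 1) ^ 2 * x ^ 2 := by
    simp [F2, map_ofNat]
  have e1 : (x - 1) * x * (x + 1) * (x + 2) = 8 * v := by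
    have a1 : (x - 1) * x * (x + 1) * (x + 2) = ((-x) ^ 2 - (-x)) * ((-x) ^ 2 - (-x) - 2) := by
      ring
    rw [a1, hw]
    linear_combination 4 * hv
  have e2 : (x - 2) * (x - 1) * x * (x + 1) = 8 * v' := by
    have a1 : (x - 2) * (x - 1) * x * (x + 1) = (x ^ 2 - x) * (x ^ 2 - x - 2) := by
      ring
    rw [a1, hw']
    linear_combination 4 * hv'
  rw [e]
  push_cast
  have a2 : (x ^ 2 - 4) * (x ^ 2 - 1) ^ 2 * x ^ 2 =
      ((x - 1) * x * (x + 1) * (x + 2)) * ((x - 2) * (x - 1) * x * (x + 1)) := by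
    ring
  rw [a2, e1, e2]
  ring

/-- PROOF. `x ^ 3 - x = 3 y`, so `x (x ^ 2 - 4) = 3 (y - x)` and
`F3 (x) = x (x ^ 2 - 1) (x (x ^ 2 - 4)) ^ 2 = 27 y (y - x) ^ 2`. -/
theorem dvd_F3 {A : Type} [CommRing A] (h : ∀ x : A, ((3 : ℕ) : A) ∣ x ^ 3 - x) (x : A) :
    ((27 : ℕ) : A) ∣ aeval x F3 := by
  obtain ⟨y, hy⟩ := h x
  push_cast at hy
  refine ⟨y * (y - x) ^ 2, ?_⟩
  have e : aeval x F3 = (x ^ 3 - x) * (x ^ 3 - x - 3 * x) ^ 2 := by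
    simp [F3, map_ofNat]
    ring
  rw [e, hy]
  push_cast
  ring

end SalemSp
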