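import Pool.Agent.Lib.MP_9599cf_ntS.Base

/-! # Numerical bounds for the auxiliary polynomials -/

set_option autoImplicit false

namespace SalemSp

open Polynomial

/-- PROOF. With `u = x ^ 2` in `[0, 4]`: `(4 - u) (u - 1) ^ 2 u ≤ 12.4`. -/
theorem F2_le {x : ℝ} (hx : |x| ≤ 2) : |aeval x F2| ≤ 12.4 := by
  rw [aeval_F2]
  obtain ⟨u, hu⟩ : ∃ u, u = x ^ 2 := ⟨_, rfl⟩
  have h0 : 0 ≤ u := by rw [hu]; positivity
  have h4 : u ≤ 4 := by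
    rw [hu, ← sq_abs]
    nlinarith [abs_nonneg x]
  rw [← hu, abs_le]
  constructor
  · nlinarith [sq_nonneg (u ^ 2 - 3 * u - 0.6), sq_nonneg (u - 3.1667)]
  · have h1 : 0 ≤ (4 - u) * (u - 1) ^ 2 * u :=
      mul_nonneg (mul_nonneg (by linarith) (sq_nonneg _)) h0
    nlinarith

private theorem F3_aux {u : ℝ} (h1 : 1 ≤ u) (h4 : u ≤ 4) :
    u ^ 3 * (u - 1) ^ 2 * (4 - u) ^ 4 ≤ 13.4 ^ 2 := by
  obtain ⟨a, ha⟩ : ∃ a, a = 0.407 * u := ⟨_, rfl⟩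
  obtain ⟨b, hb⟩ : ∃ b, b = 0.686 * (u - 1) := ⟨_, rfl⟩
  obtain ⟨c, hc⟩ : ∃ c, c = 0.64825 * (4 - u) := ⟨_, rfl⟩
  have ha0 : 0 ≤ a := by rw [ha]; linarith
  have hb0 : 0 ≤ b := by rw [hb]; linarith
  have hc0 : 0 ≤ c := by rw [hc]; linarith
  have ea : a ≤ Real.exp (a - 1) := by
    have := Real.add_one_le_exp (a - 1)
    linarith
  have eb : b ≤ Real.exp (b - 1) := by
    have := Real.add_one_le_exp (b - 1)
    linarith
  have ec : c ≤ Real.exp (c - 1) := by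
    have := Real.add_one_le_exp (c - 1)
    linarith
  have h : a ^ 3 * b ^ 2 * c ^ 4 ≤ 1 := by
    calc a ^ 3 * b ^ 2 * c ^ 4
        ≤ Real.exp (a - 1) ^ 3 * Real.exp (b - 1) ^ 2 * Real.exp (c - 1) ^ 4 := by gcongr
      _ = Real.exp (3 * (a - 1) + 2 * (b - 1) + 4 * (c - 1)) := by
        rw [← Real.exp_nat_mul, ← Real.exp_nat_mul, ← Real.exp_nat_mul, ← Real.exp_add,
          ← Real.exp_add]
        norm_num
      _ = 1 := by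
        rw [Real.exp_eq_one_iff, ha, hb, hc]
        ring
  have h2 : a ^ 3 * b ^ 2 * c ^ 4 =
      (0.407 ^ 3 * 0.686 ^ 2 * 0.64825 ^ 4) * (u ^ 3 * (u - 1) ^ 2 * (4 - u) ^ 4) := by
    rw [ha, hb, hc]
    ring
  rw [h2] at h
  have h3 : (0 : ℝ) ≤ u ^ 3 * (u - 1) ^ 2 * (4 - u) ^ 4 := by positivity
  norm_num at h ⊢
  nlinarith

/-- PROOF. By symmetry `0 ≤ x ≤ 2`: `x ^ 3 |x ^ 2 - 1| (4 - x ^ 2) ^ 2 ≤ 13.4`. -/
theorem F3_le {x : ℝ} (hx : |x| ≤ 2) : |aeval x F3| ≤ 13.4 := by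
  rw [aeval_F3]
  obtain ⟨u, hu⟩ : ∃ u, u = x ^ 2 := ⟨_, rfl⟩
  have h0 : 0 ≤ u := by rw [hu]; positivity
  have h4 : u ≤ 4 := by
    rw [hu, ← sq_abs]
    nlinarith [abs_nonneg x]
  refine abs_le_of_sq_le_sq ?_ (by norm_num)
  have e : (x ^ 3 * (x ^ 2 - 1) * (x ^ 2 - 4) ^ 2) ^ 2 = u ^ 3 * (u - 1) ^ 2 * (4 - u) ^ 4 := by
    rw [hu]
    ring
  rw [e]
  rcases le_total 1 u with h1 | h1
  · exact F3_aux h1 h4
  · have h5 : u * (1 - u) ≤ 1 := by nlinarith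
    have h6 : 0 ≤ u * (1 - u) := mul_nonneg h0 (by linarith)
    have h7 : (4 - u) * u * (1 - u) ≤ 3 / 2 := by nlinarith [mul_nonneg h0 h0, sq_nonneg (u - 1/2)]
    have h8 : 0 ≤ (4 - u) * u * (1 - u) := by
      rw [mul_assoc]
      exact mul_nonneg (by linarith) h6
    have h9 : u * (4 - u) ^ 2 ≤ 16 := by nlinarith [mul_nonneg h0 h0]
    have h10 : 0 ≤ u * (4 - u) ^ 2 := by positivity
    calc u ^ 3 * (u - 1) ^ 2 * (4 - u) ^ 4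
        = (((4 - u) * u * (1 - u)) ^ 2) * (u * (4 - u) ^ 2) := by ring
      _ ≤ (3 / 2) ^ 2 * 16 := by gcongr
      _ ≤ 13.4 ^ 2 := by norm_num

/-- PROOF. `F2` is increasing for `x ≥ 2`; `β < 2.5616` gives `F2 (β) ≤ 520.2`. -/
theorem F2_big {β : ℝ} (h2 : 2 < β) (h : β < 2.5616) :
    0 < aeval β F2 ∧ aeval β F2 ≤ 521 := by
  rw [aeval_F2]
  obtain ⟨u, hu⟩ : ∃ u, u = β ^ 2 := ⟨_, rfl⟩
  have h4 : 4 < u := by rw [hu]; nlinarith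
  have h5 : u ≤ 6.5618 := by rw [hu]; nlinarith
  rw [← hu]
  constructor
  · have a1 : 0 < u - 4 := by linarith
    have a2 : 0 < u - 1 := by linarith
    positivity
  · have a1 : 0 ≤ u - 4 := by linarith
    have a2 : 0 ≤ u - 1 := by linarith
    calc (u - 4) * (u - 1) ^ 2 * u ≤ 2.5618 * 5.5618 ^ 2 * 6.5618 := by
          gcongr <;> linarith
      _ ≤ 521 := by norm_num

/-- PROOF. `F3` is increasing for `x ≥ 2`; `F3 (2.3028) < 89.3`. -/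
theorem F3_big {β : ℝ} (h2 : 2 < β) (h : β < 2.3028) :
    0 < aeval β F3 ∧ aeval β F3 ≤ 90 := by
  rw [aeval_F3]
  have h4 : 4 < β ^ 2 := by nlinarith
  have h5 : β ^ 2 ≤ 5.3029 := by nlinarith
  have a0 : 0 < β := by linarith
  have a1 : 0 < β ^ 2 - 4 := by linarith
  have a2 : 0 < β ^ 2 - 1 := by linarith
  constructor
  · positivity
  · calc β ^ 3 * (β ^ 2 - 1) * (β ^ 2 - 4) ^ 2 ≤ 2.3028 ^ 3 * 4.3029 * 1.3029 ^ 2 := by
          gcongr <;> linarith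
      _ ≤ 90 := by norm_num

/-- PROOF. `64 ^ 3 > 521 * 12.4 ^ 2` and `64 > 12.4`. -/
theorem deg_F2 {d : ℕ} (h : (64 : ℝ) ^ d ≤ 521 * 12.4 ^ (d - 1)) : d ≤ 2 := by
  by_contra hd
  obtain ⟨e, rfl⟩ : ∃ e, d = e + 3 := ⟨d - 3, by omega⟩
  have e1 : e + 3 - 1 = e + 2 := by omega
  rw [e1, pow_add, pow_add] at h
  have h1 : (12.4 : ℝ) ^ e ≤ 64 ^ e := pow_le_pow_left₀ (by norm_num) (by norm_num) e
  have h2 : (0 : ℝ) < 64 ^ e := by positivity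
  norm_num at h h1
  nlinarith

/-- PROOF. `27 ^ 3 = 19683 > 90 * 13.4 ^ 2 = 16160.4` and `27 > 13.4`. -/
theorem deg_F3 {d : ℕ} (h : (27 : ℝ) ^ d ≤ 90 * 13.4 ^ (d - 1)) : d ≤ 2 := by
  by_contra hd
  obtain ⟨e, rfl⟩ : ∃ e, d = e + 3 := ⟨d - 3, by omega⟩
  have e1 : e + 3 - 1 = e + 2 := by omega
  rw [e1, pow_add, pow_add] at h
  have h1 : (13.4 : ℝ) ^ e ≤ 27 ^ e := pow_le_pow_left₀ (by norm_num) (by norm_num) e
  have h2 : (0 : ℝ) < 27 ^ e := by positivity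
  norm_num at h h1
  nlinarith

end SalemSp
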