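import Pool.Agent.Lib.MP_9599cf_ntS.Base

/-! # Salem traces of degree at most two -/

set_option autoImplicit false

namespace SalemSp

open Polynomial IntermediateField NumberField SalemAb

/-- PROOF. The minimal polynomial over `ℤ` (`isIntegral_trace`, `minpoly.isIntegrallyClosed_eq_field_fractions'`) has degree one or
two. Degree one: `β = n` is an integer: `a = n`, `b = 0`, other root `0`; degree two: `β ^ 2 = a β - b`, the other root `a - β` is a root of
the minimal polynomial, so by `trace_conj` it is `β` (impossible: then `2 β = a`, `β` rational, degree one; but in this case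
the conclusion may also be proved by degree one) or of absolute value at most two. -/
theorem quad_form {t : ℝ} (h : IsSalem t) (hd : (minpoly ℚ (t + t⁻¹)).natDegree ≤ 2) :
    ∃ a b : ℤ, (t + t⁻¹) ^ 2 = a * (t + t⁻¹) - b ∧ |(a : ℝ) - (t + t⁻¹)| ≤ 2 := by
  have hint : IsIntegral ℤ (t + t⁻¹) := isIntegral_trace h
  have hconj : ∀ y : ℝ, aeval y (minpoly ℚ (t + t⁻¹)) = 0 → y = t + t⁻¹ ∨ |y| ≤ 2 :=
    trace_conj h
  generalize t + t⁻¹ = β at hd hint hconj ⊢
  have hmap : minpoly ℚ β = (minpoly ℤ β).map (algebraMap ℤ ℚ) :=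
    minpoly.isIntegrallyClosed_eq_field_fractions' ℚ hint
  have hmon : (minpoly ℤ β).Monic := minpoly.monic hint
  have hdeg : (minpoly ℤ β).natDegree = (minpoly ℚ β).natDegree := by
    rw [hmap, hmon.natDegree_map]
  have hae : ∀ y : ℝ, aeval y (minpoly ℚ β) = aeval y (minpoly ℤ β) := by
    intro y
    rw [hmap, aeval_map_algebraMap]
  have hroot : aeval β (minpoly ℤ β) = 0 := minpoly.aeval ℤ β
  have hpos : 0 < (minpoly ℤ β).natDegree := minpoly.natDegree_pos hint
  have hlc : (minpoly ℤ β).coeff (minpoly ℤ β).natDegree = 1 := hmon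
  have hle : (minpoly ℤ β).natDegree ≤ 2 := hdeg.trans_le hd
  have hcase : (minpoly ℤ β).natDegree = 1 ∨ (minpoly ℤ β).natDegree = 2 := by omega
  rcases hcase with h1 | h2
  · rw [aeval_eq_sum_range, h1] at hroot
    rw [h1] at hlc
    simp only [Finset.sum_range_succ, Finset.sum_range_zero, hlc, zsmul_eq_mul, pow_zero, pow_one,
      mul_one, Int.cast_one, one_mul, zero_add] at hroot
    refine ⟨-(minpoly ℤ β).coeff 0, 0, ?_, ?_⟩
    · push_cast
      linear_combination β * hroot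
    · push_cast
      rw [show -((minpoly ℤ β).coeff 0 : ℝ) - β = 0 by linear_combination -hroot, abs_zero]
      norm_num
  · have hval : ∀ y : ℝ, aeval y (minpoly ℤ β) =
        ((minpoly ℤ β).coeff 0 : ℝ) + ((minpoly ℤ β).coeff 1 : ℝ) * y + y ^ 2 := by
      intro y
      rw [aeval_eq_sum_range, h2]
      rw [h2] at hlc
      simp only [Finset.sum_range_succ, Finset.sum_range_zero, hlc, zsmul_eq_mul, pow_zero,
        pow_one, mul_one, Int.cast_one, one_mul, zero_add]
    rw [hval] at hroot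
    refine ⟨-(minpoly ℤ β).coeff 1, (minpoly ℤ β).coeff 0, ?_, ?_⟩
    · push_cast
      linear_combination hroot
    · have hy := hconj ((-(minpoly ℤ β).coeff 1 : ℤ) - β) (by
        rw [hae, hval]
        push_cast
        linear_combination hroot)
      rcases hy with hy | hy
      · exfalso
        have hβ : β = algebraMap ℚ ℝ ((-(minpoly ℤ β).coeff 1 : ℤ) / 2) := by
          rw [map_div₀, map_intCast, map_ofNat]
          linear_combination (-1 / 2) * hy
        have h3 : (minpoly ℚ β).natDegree = 1 := by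
          rw [hβ, minpoly.eq_X_sub_C, natDegree_X_sub_C]
        omega
      · exact hy

private theorem Quad_aux {β : ℝ} {a b : ℤ} (h2 : 2 < β) (h : β ^ 2 = a * β - b)
    (hc : |(a : ℝ) - β| ≤ 2) : 1 ≤ a ∧ (b ≤ 2 * a - 5 ∨ 3 ≤ β) := by
  obtain ⟨hc1, hc2⟩ := abs_le.1 hc
  have ha : (0 : ℝ) < a := by linarith
  have ha' : 0 < a := by exact_mod_cast ha
  refine ⟨ha', ?_⟩
  rcases lt_or_eq_of_le hc2 with hlt | heq
  · left
    have h3 : (b : ℝ) < 2 * a - 4 := by nlinarith [mul_pos (sub_pos.2 h2) (sub_pos.2 hlt)]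
    have h4 : b < 2 * a - 4 := by exact_mod_cast h3
    omega
  · right
    have h3 : (4 : ℝ) < a := by linarith
    have h4 : 4 < a := by exact_mod_cast h3
    have h5 : (5 : ℝ) ≤ a := by exact_mod_cast h4
    linarith

/-- PROOF. `β' = a - β`, `β β' = b`. `0 < a = β + β' < 4.31`, so `a ∈ {1, 2, 3, 4}`;
`P(2) = 4 - 2 a + b = (2 - β) (2 - β') ≤ 0`, `P(-2) = 4 + 2 a + b ≥ 0`; `β = (a + √(a² - 4 b)) / 2 ≥ (1 + √13) / 2`, that is
`β ^ 2 - β - 3 ≥ 0`, in every case unless `β = 2`, ...: `a = 1`: `b ≤ -2`, `b = -2` gives `β = 2`, so `b ≤ -3`;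
`a = 2`: `b ≤ 0`, `b = 0` gives `β = 2`; so `b ≤ -1`; `a = 3`: `b ≤ 2`, `b = 2` gives `β = 2`; so `b ≤ 1`; `a = 4`: `b ≤ 4`,
`b = 4` gives `β = 2`, so `b ≤ 3`; in all cases `β ^ 2 - β - 3 = (a - 1) β - b - 3 ≥ 0` as `β > 2` (`a = 2`: `β² - 2 β = -b ≥ 1` gives `β ≥ 2.41`,
`a = 3`: `β ≥ 2.6`, `a = 4`: `β ≥ 3`). -/
theorem quad_three {β : ℝ} {a b : ℤ} (h2 : 2 < β) (h : β ^ 2 = a * β - b)
    (hc : |(a : ℝ) - β| ≤ 2) : 0 ≤ β ^ 2 - β - 3 := by
  obtain ⟨ha, hb | hb⟩ := Quad_aux h2 h hc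
  · have ha' : (1 : ℝ) ≤ a := by exact_mod_cast ha
    have hb' : (b : ℝ) ≤ 2 * a - 5 := by exact_mod_cast hb
    nlinarith [mul_nonneg (sub_nonneg.2 ha') (sub_pos.2 h2).le]
  · nlinarith

/-- PROOF. As above: `β < (1 + √17) / 2 = 2.5615...` leaves only `a = 1`, `b = -3` and `a = 2`, `b = -1`. -/
theorem quad_two {β : ℝ} {a b : ℤ} (h2 : 2 < β) (h : β ^ 2 = a * β - b)
    (hc : |(a : ℝ) - β| ≤ 2) (hlt : β ^ 2 - β - 4 < 0) :
    β ^ 2 = β + 3 ∨ β ^ 2 = 2 * β + 1 := by
  obtain ⟨ha, hb | hb⟩ := Quad_aux h2 h hc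
  · have ha' : (1 : ℝ) ≤ a := by exact_mod_cast ha
    have hb' : (b : ℝ) ≤ 2 * a - 5 := by exact_mod_cast hb
    have h3 : (2 : ℝ) * a - 6 < b := by
      nlinarith [mul_nonneg (sub_nonneg.2 ha') (sub_pos.2 h2).le]
    have h4 : 2 * a - 6 < b := by exact_mod_cast h3
    have h5 : b = 2 * a - 5 := by omega
    subst h5
    push_cast at h
    rcases (show a = 1 ∨ a = 2 ∨ 3 ≤ a by omega) with rfl | rfl | h6
    · left
      push_cast at h
      linarith
    · right
      push_cast at h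
      linarith
    · exfalso
      have h7 : (3 : ℝ) ≤ a := by exact_mod_cast h6
      have h8 : ((a : ℝ) - 1) * (β - 2) < 1 := by nlinarith
      have h9 : (β - 2) * (β + 2 - a) = 1 := by linear_combination h
      have h10 : (β - 2) * (a - 1) < (β - 2) * (β + 2 - a) := by linarith
      have h11 : (a : ℝ) - 1 < β + 2 - a := lt_of_mul_lt_mul_left h10 (sub_pos.2 h2).le
      nlinarith
  · exfalso
    nlinarith

end SalemSp
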