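import Pool.Agent.Lib.MP_9599cf_ntS.Base

/-! # The integers of two quadratic fields -/

set_option autoImplicit false

namespace SalemSp

open Polynomial IntermediateField NumberField SalemAb

private theorem quadInt_coords {β : ℝ} {m : ℕ} (hβ : β ^ 2 = β + m) (x : ℝ) (hx : x ∈ ℚ⟮β⟯) :
    ∃ r s : ℚ, x = r + s * β := by
  have hint : IsIntegral ℚ β := by
    refine ⟨X ^ 2 - X - C (m : ℚ), by monicity!, ?_⟩
    simp only [eval₂_sub, eval₂_pow, eval₂_X, eval₂_C, hβ]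
    simp
  have h1 : x ∈ Algebra.adjoin ℚ ({β} : Set ℝ) := by
    rw [← IntermediateField.adjoin_simple_toSubalgebra_of_isAlgebraic hint.isAlgebraic]
    exact hx
  refine Algebra.adjoin_induction (p := fun y _ => ∃ r s : ℚ, y = r + s * β) ?_ ?_ ?_ ?_ h1
  · intro y hy
    rw [Set.mem_singleton_iff] at hy
    exact ⟨0, 1, by rw [hy]; push_cast; ring⟩
  · intro r
    exact ⟨r, 0, by push_cast; simp⟩
  · rintro y z _ _ ⟨r, s, h⟩ ⟨r', s', h'⟩
    exact ⟨r + r', s + s', by rw [h, h']; push_cast; ring⟩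
  · rintro y z _ _ ⟨r, s, h⟩ ⟨r', s', h'⟩
    refine ⟨r * r' + s * s' * m, r * s' + r' * s + s * s', ?_⟩
    rw [h, h']
    push_cast
    linear_combination (s : ℝ) * s' * hβ

private theorem quadInt_irr {β : ℝ} {m : ℕ} (hm : m = 3 ∨ m = 4) (hβ : β ^ 2 = β + m) (q : ℚ) :
    (q : ℝ) ≠ β := by
  intro h
  have h1 : (2 * β - 1) ^ 2 = 1 + 4 * m := by linear_combination 4 * hβ
  have h2 : √((1 : ℝ) + 4 * m) = |2 * β - 1| := by
    rw [← h1, Real.sqrt_sq_eq_abs]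
  have h3 : Irrational √((1 : ℝ) + 4 * m) := by
    rcases hm with rfl | rfl
    · have := Nat.Prime.irrational_sqrt (show Nat.Prime 13 by norm_num)
      convert this using 2
      norm_num
    · have := Nat.Prime.irrational_sqrt (show Nat.Prime 17 by norm_num)
      convert this using 2
      norm_num
  apply h3
  rw [h2]
  refine ⟨|2 * q - 1|, ?_⟩
  rw [← h]
  push_cast
  rfl

private theorem quadInt_int {w : ℚ} (k : ℤ) (h : w ^ 2 = k) : ∃ c : ℤ, w = c := by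
  have h1 : IsIntegral ℤ w := by
    refine IsIntegral.of_pow (n := 2) (by norm_num) ?_
    rw [h]
    exact isIntegral_algebraMap (R := ℤ) (A := ℚ) (x := k)
  obtain ⟨c, hc⟩ := IsIntegrallyClosed.algebraMap_eq_of_integral h1
  exact ⟨c, by rw [← hc]; rfl⟩

private theorem quadInt_arith {m : ℕ} (hm : m = 3 ∨ m = 4) {r s : ℚ} {T N : ℤ}
    (hT : 2 * r + s = T) (hN : r ^ 2 + r * s - m * s ^ 2 = N) :
    (∃ u : ℤ, r = u) ∧ ∃ v : ℤ, s = v := by
  have h1 : (1 + 4 * (m : ℚ)) * s ^ 2 = T ^ 2 - 4 * N := by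
    rw [← hT, ← hN]
    ring
  obtain ⟨c, hc⟩ := quadInt_int (w := (1 + 4 * (m : ℚ)) * s) ((1 + 4 * m) * (T ^ 2 - 4 * N)) (by
    push_cast
    linear_combination (1 + 4 * (m : ℚ)) * h1)
  have hc2 : c ^ 2 = (1 + 4 * m) * (T ^ 2 - 4 * N) := by
    have : (c : ℚ) ^ 2 = (1 + 4 * m) * (T ^ 2 - 4 * N) := by
      rw [← hc]
      linear_combination (1 + 4 * (m : ℚ)) * h1
    exact_mod_cast this
  have hv : ∃ v : ℤ, s = v := by
    have hp : Prime ((1 : ℤ) + 4 * m) := by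
      rcases hm with rfl | rfl
      · exact Int.prime_iff_natAbs_prime.2 (by norm_num)
      · exact Int.prime_iff_natAbs_prime.2 (by norm_num)
    have hd : ((1 : ℤ) + 4 * m) ∣ c := hp.dvd_of_dvd_pow (Dvd.intro _ hc2.symm)
    obtain ⟨v, hv⟩ := hd
    refine ⟨v, ?_⟩
    have h0 : (1 + 4 * (m : ℚ)) ≠ 0 := by positivity
    refine mul_left_cancel₀ h0 ?_
    rw [hc, hv]
    push_cast
    ring
  refine ⟨?_, hv⟩
  obtain ⟨v, hv⟩ := hv
  have h2 : (1 + 4 * (m : ℤ)) * v ^ 2 = T ^ 2 - 4 * N := by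
    rw [hv] at h1
    exact_mod_cast h1
  have h3 : (2 : ℤ) ∣ T - v := by
    have h4 : (2 : ℤ) ∣ (T - v) * (T + v) := by
      refine ⟨2 * m * v ^ 2 + 2 * N, ?_⟩
      linear_combination -h2
    rcases Int.prime_two.dvd_or_dvd h4 with h5 | h5
    · exact h5
    · omega
  obtain ⟨u, hu⟩ := h3
  refine ⟨u, ?_⟩
  have h5 : (2 : ℚ) * r = 2 * u := by
    have : (T : ℚ) - v = 2 * u := by exact_mod_cast hu
    rw [← this, ← hT, hv]
    ring
  linarith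

private theorem quadInt_rat {r : ℚ} (h : IsIntegral ℤ ((r : ℚ) : ℝ)) : ∃ u : ℤ, r = u := by
  have h1 : IsIntegral ℤ r := by
    have h2 : IsIntegral ℤ (algebraMap ℚ ℝ r) := h
    exact (isIntegral_algebraMap_iff (algebraMap ℚ ℝ).injective).1 h2
  obtain ⟨c, hc⟩ := IsIntegrallyClosed.algebraMap_eq_of_integral h1
  exact ⟨c, by rw [← hc]; rfl⟩

private theorem quadInt_real {β : ℝ} {m : ℕ} (hm : m = 3 ∨ m = 4) (hβ : β ^ 2 = β + m)
    {r s : ℚ} (hx : IsIntegral ℤ ((r : ℝ) + s * β)) :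
    (∃ u : ℤ, r = u) ∧ ∃ v : ℤ, s = v := by
  by_cases hs : s = 0
  · subst hs
    refine ⟨quadInt_rat (by simpa using hx), 0, by simp⟩
  set x : ℝ := (r : ℝ) + s * β with hxd
  have hxQ : IsIntegral ℚ x := hx.tower_top
  have hnr : x ∉ (algebraMap ℚ ℝ).range := by
    rintro ⟨q, hq⟩
    refine quadInt_irr hm hβ ((q - r) / s) ?_
    have hs' : (s : ℝ) ≠ 0 := by exact_mod_cast hs
    push_cast
    rw [div_eq_iff hs']
    have hq' : (q : ℝ) = r + s * β := hq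
    rw [hq']
    ring
  obtain ⟨P, hP⟩ : ∃ P : ℚ[X], P = X ^ 2 - C (2 * r + s) * X + C (r ^ 2 + r * s - m * s ^ 2) :=
    ⟨_, rfl⟩
  have hPm : P.Monic := by rw [hP]; monicity!
  have hPd : P.natDegree = 2 := by rw [hP]; compute_degree!
  have hP0 : aeval x P = 0 := by
    rw [hP, hxd]
    simp only [map_add, map_sub, map_mul, map_pow, aeval_X, aeval_C, eq_ratCast, Rat.cast_add,
      Rat.cast_sub, Rat.cast_mul, Rat.cast_pow, Rat.cast_ofNat, Rat.cast_natCast]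
    linear_combination (s : ℝ) ^ 2 * hβ
  have h1 : P = minpoly ℚ x := by
    refine (Polynomial.eq_of_monic_of_dvd_of_natDegree_le (minpoly.monic hxQ) hPm
      (minpoly.dvd ℚ x hP0) ?_)
    rw [hPd]
    exact (minpoly.two_le_natDegree_iff hxQ).2 hnr
  have h2 : minpoly ℚ x = (minpoly ℤ x).map (algebraMap ℤ ℚ) :=
    minpoly.isIntegrallyClosed_eq_field_fractions' ℚ hx
  rw [h2] at h1
  have c1 := congrArg (fun Q => Q.coeff 1) h1
  have c0 := congrArg (fun Q => Q.coeff 0) h1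
  simp only [hP, coeff_map, coeff_add, coeff_sub, coeff_X_pow, coeff_C_mul, coeff_X_one,
    coeff_X_zero, coeff_C_zero, eq_intCast] at c0 c1
  refine quadInt_arith hm (T := -(minpoly ℤ x).coeff 1) (N := (minpoly ℤ x).coeff 0) ?_ ?_
  · have e1 : (C (r ^ 2 + r * s - m * s ^ 2) : ℚ[X]).coeff 1 = 0 := by
      rw [coeff_C]
      simp
    rw [e1] at c1
    push_cast
    rw [← c1]
    simp
  · rw [← c0]
    simp

/-- PROOF. `x = r + s β` with rational `r`, `s` (`ℚ⟮β⟯` has the basis `1`, `β`: e.g. `IntermediateField.mem_adjoin_simple_iff`,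
reduction with `β ^ 2 = β + m`, or closure induction). The element `x' = r + s - s β` is the conjugate (apply the automorphism
`β ↦ 1 - β`, or argue with real numbers: the minimal polynomial), so `T = x + x' = 2 r + s` and
`N = x x' = r ^ 2 + r s - m s ^ 2` are integers; `T ^ 2 - (1 + 4 m) s ^ 2 = 4 N`, `1 + 4 m = 13` or `17` is prime, so `s` is an
integer, `T` and `s` have the same parity, so `r` is an integer. (`1, β` are independent: `β` is irrational because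
`β ^ 2 - β - m` has no integer root.) -/
theorem exists_int_coords {β : ℝ} {m : ℕ} (hm : m = 3 ∨ m = 4) (hβ : β ^ 2 = β + m)
    (x : 𝓞 ℚ⟮β⟯) : ∃ u v : ℤ, (x : ℝ) = u + v * β := by
  obtain ⟨r, s, h⟩ := quadInt_coords hβ ((x : ℚ⟮β⟯) : ℝ) (x : ℚ⟮β⟯).2
  have h1 : IsIntegral ℤ ((r : ℝ) + s * β) := by
    rw [← h]
    have h2 : IsIntegral ℤ (x : ℚ⟮β⟯) := x.isIntegral_coe
    exact h2.map (ℚ⟮β⟯.val.restrictScalars ℤ)
  obtain ⟨⟨u, hu⟩, v, hv⟩ := quadInt_real hm hβ h1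
  refine ⟨u, v, ?_⟩
  rw [h, hu, hv]
  push_cast
  rfl

private theorem quadInt_gen {β : ℝ} {m : ℕ} (hβ : β ^ 2 = β + m) :
    ∃ b : 𝓞 ℚ⟮β⟯, (b : ℝ) = β ∧ b ^ 2 = b + m := by
  have hint : IsIntegral ℤ (⟨β, mem_adjoin_simple_self ℚ β⟩ : ℚ⟮β⟯) := by
    refine ⟨X ^ 2 - X - C (m : ℤ), by monicity!, ?_⟩
    apply Subtype.ext
    simp only [eval₂_sub, eval₂_pow, eval₂_X, eval₂_C]
    push_cast
    rw [hβ]
    simp
  obtain ⟨b, hb⟩ : ∃ b : 𝓞 ℚ⟮β⟯, (b : ℝ) = β := ⟨⟨_, hint⟩, rfl⟩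
  refine ⟨b, hb, ?_⟩
  apply RingOfIntegers.coe_injective
  apply Subtype.ext
  push_cast
  rw [hb, hβ]

private theorem quadInt_eq {β : ℝ} {x b : 𝓞 ℚ⟮β⟯} (hb : (b : ℝ) = β) {u v : ℤ}
    (h : (x : ℝ) = u + v * β) : x = u + v * b := by
  apply RingOfIntegers.coe_injective
  apply Subtype.ext
  push_cast
  rw [h, hb]
  rfl

/-- PROOF. `x = u + v β` (`exists_int_coords`); modulo `2`: `x ^ 2 = u ^ 2 + 2 u v β + v ^ 2 (β + 4)`, and `u ^ 2 - u`,
`v ^ 2 - v` are even: `x ^ 2 - x = 2 y` with `y = (u ^ 2 - u) / 2 + u v β + 2 v ^ 2 + (v ^ 2 - v) / 2 β`; the element `y` of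
`𝓞 ℚ⟮β⟯` is an integer combination of `1` and `β`. -/
theorem splits_two {β : ℝ} (hβ : β ^ 2 = β + 4) : SplitsCompletely 2 β := by
  intro x
  have hβ' : β ^ 2 = β + (4 : ℕ) := by rw [hβ]; norm_num
  obtain ⟨u, v, h⟩ := exists_int_coords (Or.inr rfl) hβ' x
  obtain ⟨b, hb, hb2⟩ := quadInt_gen hβ'
  obtain ⟨k, hk⟩ : (2 : ℤ) ∣ u ^ 2 - u := by
    have h1 : u ^ 2 - u = u * (u - 1) := by ring
    rw [h1]
    exact (Int.even_mul_pred_self u).two_dvd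
  obtain ⟨l, hl⟩ : (2 : ℤ) ∣ v ^ 2 - v := by
    have h1 : v ^ 2 - v = v * (v - 1) := by ring
    rw [h1]
    exact (Int.even_mul_pred_self v).two_dvd
  have hk' : (u : 𝓞 ℚ⟮β⟯) ^ 2 - u = 2 * k := by exact_mod_cast congrArg (Int.cast) hk
  have hl' : (v : 𝓞 ℚ⟮β⟯) ^ 2 - v = 2 * l := by exact_mod_cast congrArg (Int.cast) hl
  rw [quadInt_eq hb h]
  refine ⟨k + l * b + u * v * b + 2 * v ^ 2, ?_⟩
  push_cast at hb2 ⊢
  linear_combination hk' + b * hl' + (v : 𝓞 ℚ⟮β⟯) ^ 2 * hb2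

/-- PROOF. `x = u + v β`, `β ^ 3 = β ^ 2 + 3 β = 4 β + 3`; `x ^ 3 = u ^ 3 + 3 (...) + v ^ 3 (4 β + 3)`, and `u ^ 3 - u`,
`v ^ 3 - v` are divisible by `3`. -/
theorem splits_three {β : ℝ} (hβ : β ^ 2 = β + 3) : SplitsCompletely 3 β := by
  intro x
  have hβ' : β ^ 2 = β + (3 : ℕ) := by rw [hβ]; norm_num
  obtain ⟨u, v, h⟩ := exists_int_coords (Or.inl rfl) hβ' x
  obtain ⟨b, hb, hb2⟩ := quadInt_gen hβ'
  have h3 : ∀ w : ℤ, (3 : ℤ) ∣ w ^ 3 - w := by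
    intro w
    have : Fact (Nat.Prime 3) := ⟨Nat.prime_three⟩
    have h1 : ((w ^ 3 - w : ℤ) : ZMod 3) = 0 := by
      push_cast
      rw [ZMod.pow_card, sub_self]
    exact_mod_cast (ZMod.intCast_zmod_eq_zero_iff_dvd _ 3).1 h1
  obtain ⟨k, hk⟩ := h3 u
  obtain ⟨l, hl⟩ := h3 v
  have hk' : (u : 𝓞 ℚ⟮β⟯) ^ 3 - u = 3 * k := by exact_mod_cast congrArg (Int.cast) hk
  have hl' : (v : 𝓞 ℚ⟮β⟯) ^ 3 - v = 3 * l := by exact_mod_cast congrArg (Int.cast) hl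
  rw [quadInt_eq hb h]
  refine ⟨k + l * b + (u ^ 2 * v * b + u * v ^ 2 * (b + 3) + v ^ 3 * b + v ^ 3), ?_⟩
  push_cast at hb2 ⊢
  linear_combination hk' + b * hl' + (3 * (u : 𝓞 ℚ⟮β⟯) * v ^ 2 + v ^ 3 * (b + 1)) * hb2

end SalemSp
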