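import Pool.Agent.Lib.MP_9599cf_ntS.Base

/-! # Two Salem numbers of degree four -/

set_option autoImplicit false

namespace SalemSp

open Polynomial SalemAb

/-- a complex number whose trace is a real number in `(-2, 2)` has norm one -/
private theorem quad_norm {z : ℂ} {y : ℝ} (hy : -2 < y) (hy2 : y < 2)
    (hz : z ^ 2 - y * z + 1 = 0) : ‖z‖ = 1 := by
  have hre := congrArg Complex.re hz
  have him := congrArg Complex.im hz
  simp [pow_two] at hre him
  have him' : z.im * (2 * z.re - y) = 0 := by linarith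
  rcases mul_eq_zero.1 him' with h | h
  · exfalso
    rw [h] at hre
    nlinarith [sq_nonneg (2 * z.re - y)]
  · have h3 : z.re * z.re + z.im * z.im = 1 := by
      have : y = 2 * z.re := by linarith
      rw [this] at hre
      linarith
    have h4 : ‖z‖ ^ 2 = 1 := by
      rw [← Complex.normSq_eq_norm_sq, Complex.normSq_apply]
      exact h3
    have h5 : 0 ≤ ‖z‖ := norm_nonneg z
    nlinarith

/-- the polynomial of degree four -/
private noncomputable def quadP (m : ℕ) : ℤ[X] :=
  X ^ 4 + C (-1) * X ^ 3 + C (2 - (m : ℤ)) * X ^ 2 + C (-1) * X + C 1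

private theorem quadP_monic (m : ℕ) : (quadP m).Monic := by
  unfold quadP
  monicity!

private theorem quadP_aeval {R : Type*} [CommRing R] (m : ℕ) (x : R) :
    aeval x (quadP m) = x ^ 4 - x ^ 3 + (2 - (m : R)) * x ^ 2 - x + 1 := by
  simp only [quadP, map_add, map_mul, map_pow, aeval_X, map_neg, map_one, map_sub,
    map_ofNat, map_natCast]
  ring

private theorem quadP_root {s β : ℝ} {m : ℕ} (hβ : β ^ 2 = β + m) (hs : 1 < s)
    (h : s + s⁻¹ = β) : aeval s (quadP m) = 0 := by
  have hs0 : s ≠ 0 := by linarith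
  rw [quadP_aeval]
  have e : s ^ 4 - s ^ 3 + (2 - (m : ℝ)) * s ^ 2 - s + 1 = s ^ 2 * (β ^ 2 - (β + m)) := by
    rw [← h]
    field_simp
    ring
  rw [e, hβ, sub_self, mul_zero]

private theorem quad_lt {β : ℝ} {m : ℕ} (hm : m = 3 ∨ m = 4) (hβ : β ^ 2 = β + m) (h2 : 2 < β) :
    β < 3 := by
  by_contra h
  push Not at h
  rcases hm with hm | hm <;> subst hm <;> push_cast at hβ <;> nlinarith

private theorem quad_conj {s β : ℝ} {m : ℕ} (hm : m = 3 ∨ m = 4) (hβ : β ^ 2 = β + m)
    (h2 : 2 < β) (hs : 1 < s) (h : s + s⁻¹ = β) {z : ℂ} (hz : aeval z (minpoly ℚ s) = 0) :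
    z = (s : ℂ) ∨ z = ((s⁻¹ : ℝ) : ℂ) ∨ ‖z‖ = 1 := by
  have hs0 : s ≠ 0 := by linarith
  have hdvd : minpoly ℚ s ∣ (quadP m).map (algebraMap ℤ ℚ) := by
    refine minpoly.dvd ℚ s ?_
    rw [aeval_map_algebraMap]
    exact quadP_root hβ hs h
  have hz' : aeval z (quadP m) = 0 := by
    obtain ⟨q, hq⟩ := hdvd
    have h3 : aeval z ((quadP m).map (algebraMap ℤ ℚ)) = 0 := by
      rw [hq, map_mul, hz, zero_mul]
    rwa [aeval_map_algebraMap] at h3
  rw [quadP_aeval] at hz'
  have hz0 : z ≠ 0 := by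
    rintro rfl
    norm_num at hz'
  set y : ℂ := z + z⁻¹ with hy
  have hyz : z ^ 2 - y * z + 1 = 0 := by
    rw [hy]
    field_simp
    ring
  have hyq : y ^ 2 - y - m = 0 := by
    have e : z ^ 4 - z ^ 3 + (2 - (m : ℂ)) * z ^ 2 - z + 1 = z ^ 2 * (y ^ 2 - y - m) := by
      rw [hy]
      field_simp
      ring
    rw [e] at hz'
    exact (mul_eq_zero.1 hz').resolve_left (pow_ne_zero _ hz0)
  have hβc : (β : ℂ) ^ 2 = β + m := by
    exact_mod_cast congrArg (fun t : ℝ => (t : ℂ)) hβ
  have hfac : (y - β) * (y + β - 1) = 0 := by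
    linear_combination hyq - hβc
  rcases mul_eq_zero.1 hfac with h3 | h3
  · have h4 : y = β := by linear_combination h3
    have h5 : (z - s) * (z - ((s⁻¹ : ℝ) : ℂ)) = 0 := by
      have hsc : (s : ℂ) ≠ 0 := by exact_mod_cast hs0
      have h6 : (β : ℂ) = s + (s : ℂ)⁻¹ := by
        rw [← h]
        push_cast
        ring
      rw [h4, h6] at hyz
      push_cast
      have h7 : (s : ℂ) * (s : ℂ)⁻¹ = 1 := mul_inv_cancel₀ hsc
      linear_combination hyz + h7
    rcases mul_eq_zero.1 h5 with h6 | h6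
    · exact Or.inl (by linear_combination h6)
    · exact Or.inr (Or.inl (by linear_combination h6))
  · right
    right
    have hb := quad_lt hm hβ h2
    have h6 : y = ((1 - β : ℝ) : ℂ) := by
      push_cast
      linear_combination h3
    refine quad_norm (y := 1 - β) (by linarith) (by linarith) ?_
    rw [← h6]
    exact hyz

private theorem quad_int {s β : ℝ} {m : ℕ} (hβ : β ^ 2 = β + m) (hs : 1 < s)
    (h : s + s⁻¹ = β) : IsIntegral ℤ s :=
  ⟨quadP m, quadP_monic m, quadP_root hβ hs h⟩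

private theorem quad_irrat {β : ℝ} {m : ℕ} (hm : m = 3 ∨ m = 4) (hβ : β ^ 2 = β + m)
    (h2 : 2 < β) (r : ℚ) (hr : β = r) : False := by
  have hb := quad_lt hm hβ h2
  have h1 : r ^ 2 = r + m := by
    rw [hr] at hβ
    exact_mod_cast hβ
  have hint : IsIntegral ℤ r := by
    refine ⟨X ^ 2 + C (-1) * X + C (-(m : ℤ)), by monicity!, ?_⟩
    simp only [eval₂_add, eval₂_mul, eval₂_pow, eval₂_X, eval₂_C]
    simp only [map_neg, map_one, map_natCast]
    linarith
  obtain ⟨n, hn⟩ := IsIntegrallyClosed.algebraMap_eq_of_integral hint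
  have h3 : β = (n : ℝ) := by
    rw [hr, ← hn]
    simp
  rw [h3] at h2 hb
  have h4 : (2 : ℤ) < n := by exact_mod_cast h2
  have h5 : n < (3 : ℤ) := by exact_mod_cast hb
  omega

/-- PROOF. As `star_isSalem` in `Pool/Agent/Lib/MP_9599cf_nt/StarB.lean`, simpler: `s ^ 2 = β s - 1`, so
`s ^ 4 - s ^ 3 + (2 - m) s ^ 2 - s + 1 = s ^ 2 (β ^ 2 - β - m) = 0`. Every root `z` of `minpoly ℚ s` is a root of this polynomial,
so `y = z + z⁻¹` satisfies `y ^ 2 - y - m = 0`: `y = β` (then `z = s` or `z = s⁻¹`) or `y = 1 - β` in `(-2, 0)` (then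
`‖z‖ = 1`). Some root has norm one: otherwise the roots of `minpoly ℚ s` are among `s`, `s⁻¹`, the degree is at most two and
`β = s + s⁻¹` is rational, so an integer, but `2 < β < 3`. -/
theorem quad_isSalem {s β : ℝ} {m : ℕ} (hm : m = 3 ∨ m = 4) (hβ : β ^ 2 = β + m) (h2 : 2 < β)
    (hs : 1 < s) (h : s + s⁻¹ = β) : IsSalem s := by
  have hint := quad_int hβ hs h
  have hintQ : IsIntegral ℚ s := hint.tower_top
  have hs0 : s ≠ 0 := by linarith
  refine ⟨hint, hs, ?_, ?_⟩
  · intro z hz hzs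
    rcases quad_conj hm hβ h2 hs h hz with h3 | h3 | h3
    · exact absurd h3 hzs
    · rw [h3, Complex.norm_real, Real.norm_eq_abs, abs_of_pos (by positivity)]
      exact inv_le_one_of_one_le₀ hs.le
    · exact h3.le
  · by_contra hno
    push Not at hno
    have hsep : (minpoly ℚ s).Separable := (minpoly.irreducible hintQ).separable
    have hcard := card_rootSet_eq_natDegree (K := ℂ) hsep (IsAlgClosed.splits _)
    have hsub : (minpoly ℚ s).rootSet ℂ ⊆ ({(s : ℂ), ((s⁻¹ : ℝ) : ℂ)} : Set ℂ) := by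
      intro z hz
      have hz' : aeval z (minpoly ℚ s) = 0 := (mem_rootSet.1 hz).2
      rcases quad_conj hm hβ h2 hs h hz' with h3 | h3 | h3
      · exact Or.inl h3
      · exact Or.inr h3
      · exact absurd h3 (hno z hz')
    have hle : ((minpoly ℚ s).rootSet ℂ).ncard ≤ 2 :=
      (Set.ncard_le_ncard hsub (Set.toFinite _)).trans
        ((Set.ncard_insert_le _ _).trans (by rw [Set.ncard_singleton]))
    have h4 : Nat.card ((minpoly ℚ s).rootSet ℂ) = ((minpoly ℚ s).rootSet ℂ).ncard := rfl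
    rw [← Nat.card_eq_fintype_card, h4] at hcard
    have hmon := minpoly.monic hintQ
    have hroot := minpoly.aeval ℚ s
    have hpos := minpoly.natDegree_pos hintQ
    have hdeg : (minpoly ℚ s).natDegree ≤ 2 := by omega
    have hq := eq_quadratic_of_degree_le_two (natDegree_le_iff_degree_le.1 hdeg)
    set P := minpoly ℚ s with hP
    rcases (show P.natDegree = 1 ∨ P.natDegree = 2 by omega) with hd | hd
    · have hc2 : P.coeff 2 = 0 := coeff_eq_zero_of_natDegree_lt (by omega)
      have hc1 : P.coeff 1 = 1 := by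
        have := hmon.coeff_natDegree
        rwa [hd] at this
      rw [hc2, hc1] at hq
      rw [hq] at hroot
      simp only [map_zero, zero_mul, map_one, one_mul, zero_add, map_add, aeval_X, aeval_C] at hroot
      refine quad_irrat hm hβ h2 (-(P.coeff 0) + (-(P.coeff 0))⁻¹) ?_
      have h5 : s = ((-(P.coeff 0) : ℚ) : ℝ) := by
        have h6 : (algebraMap ℚ ℝ) (P.coeff 0) = ((P.coeff 0 : ℚ) : ℝ) := rfl
        rw [h6] at hroot
        push_cast
        linarith
      rw [← h]
      push_cast at h5 ⊢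
      rw [← h5]
    · have hc2 : P.coeff 2 = 1 := by
        have := hmon.coeff_natDegree
        rwa [hd] at this
      have hmem : (((s⁻¹ : ℝ) : ℂ)) ∈ P.rootSet ℂ := by
        by_contra hn
        have hsub2 : P.rootSet ℂ ⊆ ({(s : ℂ)} : Set ℂ) := by
          intro z hz
          rcases hsub hz with h7 | h7
          · exact h7
          · exact absurd (h7 ▸ hz) hn
        have := Set.ncard_le_ncard hsub2 (Set.toFinite _)
        rw [Set.ncard_singleton] at this
        omega
      have hroot2 : aeval ((s⁻¹ : ℝ) : ℂ) P = 0 := (mem_rootSet.1 hmem).2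
      have hroot3 : aeval (s⁻¹ : ℝ) P = 0 := by
        have h6 : aeval ((algebraMap ℝ ℂ) s⁻¹) P = (algebraMap ℝ ℂ) (aeval s⁻¹ P) :=
          aeval_algebraMap_apply ℂ s⁻¹ P
        have h7 : (algebraMap ℝ ℂ) (aeval s⁻¹ P) = 0 := by
          rw [← h6]
          exact hroot2
        exact (map_eq_zero (algebraMap ℝ ℂ)).1 h7
      rw [hc2] at hq
      rw [hq] at hroot hroot3
      simp only [map_one, one_mul, map_add, map_mul, map_pow, aeval_X, aeval_C] at hroot hroot3
      refine quad_irrat hm hβ h2 (-(P.coeff 1)) ?_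
      have h6 : (algebraMap ℚ ℝ) (P.coeff 1) = ((P.coeff 1 : ℚ) : ℝ) := rfl
      rw [h6] at hroot hroot3
      push_cast
      have h8 : (s - s⁻¹) * (β + ((P.coeff 1 : ℚ) : ℝ)) = 0 := by
        rw [← h]
        linear_combination hroot - hroot3
      have h9 : s - s⁻¹ ≠ 0 := by
        have h10 : s⁻¹ < 1 := inv_lt_one_of_one_lt₀ hs
        intro h11
        linarith
      have h10 := (mul_eq_zero.1 h8).resolve_left h9
      linarith

end SalemSp
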