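import Pool.Agent.Lib.MP_9599cf_ntS.Bound
import Pool.Agent.Lib.MP_9599cf_ntS.Div
import Pool.Agent.Lib.MP_9599cf_ntS.Num
import Pool.Agent.Lib.MP_9599cf_ntS.Quad
import Pool.Agent.Lib.MP_9599cf_ntS.QuadInt
import Pool.Agent.Lib.MP_9599cf_ntS.StarQ

/-! # The least Salem numbers with trace field completely split at 2 or 3 -/

set_option autoImplicit false

namespace SalemSp

open Polynomial IntermediateField NumberField SalemAb

theorem gt_two {t : ℝ} (ht : 1 < t) : 2 < t + t⁻¹ := by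
  have h1 : t + t⁻¹ - 2 = (t - 1) ^ 2 / t := by
    field_simp
    ring
  have h2 : 0 < (t - 1) ^ 2 / t := by
    have : 0 < t - 1 := by linarith
    positivity
  linarith

theorem le_of_trace {s t : ℝ} (hs : 1 < s) (ht : 1 < t) (h : s + s⁻¹ ≤ t + t⁻¹) : s ≤ t := by
  by_contra hlt
  push Not at hlt
  have h5 : s + s⁻¹ - (t + t⁻¹) = (s - t) * (s * t - 1) / (s * t) := by
    field_simp
    ring
  have h6 : 0 < (s - t) * (s * t - 1) / (s * t) := by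
    have h7 : 0 < s * t := by positivity
    have h8 : 1 < s * t := by nlinarith
    have h9 : 0 < s - t := by linarith
    have h10 : 0 < s * t - 1 := by linarith
    positivity
  linarith

theorem exists_salem {β : ℝ} (h2 : 2 < β) : ∃ s : ℝ, 1 < s ∧ s + s⁻¹ = β := by
  have hd : 0 < β ^ 2 - 4 := by nlinarith
  have hr0 : 0 < √(β ^ 2 - 4) := Real.sqrt_pos.2 hd
  have hr2 : √(β ^ 2 - 4) ^ 2 = β ^ 2 - 4 := Real.sq_sqrt hd.le
  have hs1 : 1 < (β + √(β ^ 2 - 4)) / 2 := by linarith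
  refine ⟨(β + √(β ^ 2 - 4)) / 2, hs1, ?_⟩
  have hs0 : (β + √(β ^ 2 - 4)) / 2 ≠ 0 := by linarith
  have hq : ((β + √(β ^ 2 - 4)) / 2) ^ 2 - β * ((β + √(β ^ 2 - 4)) / 2) + 1 = 0 := by
    nlinarith
  field_simp at hq ⊢
  linarith

theorem em_genO {t : ℝ} (h : IsSalem t) :
    algebraMap ℚ⟮t + t⁻¹⟯ ℝ (algebraMap (𝓞 ℚ⟮t + t⁻¹⟯) ℚ⟮t + t⁻¹⟯ (genO (isIntegral_trace h))) =
      t + t⁻¹ := by
  show ((AdjoinSimple.gen ℚ (t + t⁻¹) : ℚ⟮t + t⁻¹⟯) : ℝ) = t + t⁻¹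
  exact AdjoinSimple.coe_gen ℚ _

theorem not_two_dvd_one (β : ℝ) : ¬ ((2 : ℕ) : 𝓞 ℚ⟮β⟯) ∣ 1 := by
  rintro ⟨z, hz⟩
  have h1 : (algebraMap (𝓞 ℚ⟮β⟯) ℚ⟮β⟯ z) = algebraMap ℚ ℚ⟮β⟯ (1 / 2) := by
    have h2 := congrArg (algebraMap (𝓞 ℚ⟮β⟯) ℚ⟮β⟯) hz
    rw [map_one, map_mul, map_natCast] at h2
    push_cast at h2
    rw [map_div₀, map_one, map_ofNat]
    field_simp
    linear_combination -h2
  have h3 : IsIntegral ℤ (algebraMap ℚ ℚ⟮β⟯ (1 / 2)) := by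
    rw [← h1]
    exact RingOfIntegers.isIntegral_coe z
  have h4 : IsIntegral ℤ (1 / 2 : ℚ) :=
    (isIntegral_algebraMap_iff (algebraMap ℚ ℚ⟮β⟯).injective).1 h3
  obtain ⟨n, hn⟩ := IsIntegrallyClosed.isIntegral_iff.1 h4
  have h5 : (2 * n : ℚ) = 1 := by
    have : (n : ℚ) = 1 / 2 := by simpa using hn
    linarith
  have h6 : 2 * n = 1 := by exact_mod_cast h5
  omega

theorem lower_three {t : ℝ} (h : IsSalem t) (hsp : SplitsCompletely 3 (t + t⁻¹)) :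
    (1 + √13) / 2 ≤ t + t⁻¹ := by
  by_contra hlt
  push Not at hlt
  have h2 := gt_two h.2.1
  have hs : √13 < 3.6056 := by
    rw [Real.sqrt_lt' (by norm_num)]
    norm_num
  have hs2 : √13 ^ 2 = 13 := Real.sq_sqrt (by norm_num)
  have hub : t + t⁻¹ < 2.3028 := by linarith
  have hbig := F3_big h2 hub
  have h1 := prod_bound h F3 27 (dvd_F3 hsp _) hbig.1.ne' 13.4 (fun x hx => F3_le hx)
  rw [abs_of_pos hbig.1] at h1
  have h3 : (27 : ℝ) ^ (minpoly ℚ (t + t⁻¹)).natDegree ≤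
      90 * 13.4 ^ ((minpoly ℚ (t + t⁻¹)).natDegree - 1) := by
    refine le_trans ?_ (h1.trans (mul_le_mul_of_nonneg_right hbig.2 (by positivity)))
    norm_num
  obtain ⟨a, b, hab, hc⟩ := quad_form h (deg_F3 h3)
  have h4 := quad_three h2 hab hc
  nlinarith [Real.sqrt_nonneg 13]

theorem lower_two {t : ℝ} (h : IsSalem t) (hsp : SplitsCompletely 2 (t + t⁻¹)) :
    (1 + √17) / 2 ≤ t + t⁻¹ := by
  by_contra hlt
  push Not at hlt
  have h2 := gt_two h.2.1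
  have hs : √17 < 4.1232 := by
    rw [Real.sqrt_lt' (by norm_num)]
    norm_num
  have hs2 : √17 ^ 2 = 17 := Real.sq_sqrt (by norm_num)
  have hub : t + t⁻¹ < 2.5616 := by linarith
  have hbig := F2_big h2 hub
  have h1 := prod_bound h F2 64 (dvd_F2 hsp _) hbig.1.ne' 12.4 (fun x hx => F2_le hx)
  rw [abs_of_pos hbig.1] at h1
  have h3 : (64 : ℝ) ^ (minpoly ℚ (t + t⁻¹)).natDegree ≤
      521 * 12.4 ^ ((minpoly ℚ (t + t⁻¹)).natDegree - 1) := by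
    refine le_trans ?_ (h1.trans (mul_le_mul_of_nonneg_right hbig.2 (by positivity)))
    norm_num
  obtain ⟨a, b, hab, hc⟩ := quad_form h (deg_F2 h3)
  have h17 : (t + t⁻¹) ^ 2 - (t + t⁻¹) - 4 < 0 := by
    nlinarith [Real.sqrt_nonneg 17]
  obtain ⟨g, hg⟩ : ∃ g, g = genO (isIntegral_trace h) := ⟨_, rfl⟩
  have hem := em_genO h
  rw [← hg] at hem
  have hinj : Function.Injective (fun x : 𝓞 ℚ⟮t + t⁻¹⟯ =>
      algebraMap ℚ⟮t + t⁻¹⟯ ℝ (algebraMap (𝓞 ℚ⟮t + t⁻¹⟯) ℚ⟮t + t⁻¹⟯ x)) :=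
    (algebraMap ℚ⟮t + t⁻¹⟯ ℝ).injective.comp RingOfIntegers.coe_injective
  rcases quad_two h2 hab hc h17 with h5 | h5
  · have h6 : g ^ 2 = g + 3 := by
      apply hinj
      simp only [map_add, map_pow, map_ofNat]
      rw [hem, h5]
    have h7 := hsp g
    rw [h6] at h7
    refine not_two_dvd_one (t + t⁻¹) ?_
    have h8 : (1 : 𝓞 ℚ⟮t + t⁻¹⟯) = (g + 3 - g) - ((2 : ℕ) : 𝓞 ℚ⟮t + t⁻¹⟯) * 1 := by
      push_cast
      ring
    rw [h8]
    exact dvd_sub h7 (dvd_mul_right _ _)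
  · have h6 : g ^ 2 = 2 * g + 1 := by
      apply hinj
      simp only [map_add, map_pow, map_mul, map_ofNat, map_one]
      rw [hem, h5]
    have h7 := hsp g
    rw [h6] at h7
    obtain ⟨z, hz⟩ := h7
    refine not_two_dvd_one (t + t⁻¹) ⟨z ^ 2 - g, ?_⟩
    have h9 : (2 : 𝓞 ℚ⟮t + t⁻¹⟯) ≠ 0 := two_ne_zero
    apply mul_left_cancel₀ h9
    push_cast at hz ⊢
    linear_combination (g + 1 + 2 * z) * hz - h6


theorem main_three : ∃ s : ℝ, IsSalem s ∧ SplitsCompletely 3 (s + s⁻¹) ∧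
    s + s⁻¹ = (1 + √13) / 2 ∧
    ∀ t : ℝ, IsSalem t → SplitsCompletely 3 (t + t⁻¹) → s ≤ t := by
  have hs2 : √13 ^ 2 = 13 := Real.sq_sqrt (by norm_num)
  have hs3 : 3 < √13 := by
    rw [Real.lt_sqrt (by norm_num)]
    norm_num
  have hβ : ((1 + √13) / 2) ^ 2 = (1 + √13) / 2 + 3 := by nlinarith
  have h2 : 2 < (1 + √13) / 2 := by linarith
  obtain ⟨s, hs1, hs⟩ := exists_salem h2
  refine ⟨s, quad_isSalem (m := 3) (Or.inl rfl) (by exact_mod_cast hβ) h2 hs1 hs, ?_, hs, ?_⟩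
  · rw [hs]
    exact splits_three hβ
  · intro t ht hsp
    refine le_of_trace hs1 ht.2.1 ?_
    rw [hs]
    exact lower_three ht hsp

theorem main_two : ∃ s : ℝ, IsSalem s ∧ SplitsCompletely 2 (s + s⁻¹) ∧
    s + s⁻¹ = (1 + √17) / 2 ∧
    ∀ t : ℝ, IsSalem t → SplitsCompletely 2 (t + t⁻¹) → s ≤ t := by
  have hs2 : √17 ^ 2 = 17 := Real.sq_sqrt (by norm_num)
  have hs3 : 3 < √17 := by
    rw [Real.lt_sqrt (by norm_num)]
    norm_num
  have hβ : ((1 + √17) / 2) ^ 2 = (1 + √17) / 2 + 4 := by nlinarith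
  have h2 : 2 < (1 + √17) / 2 := by linarith
  obtain ⟨s, hs1, hs⟩ := exists_salem h2
  refine ⟨s, quad_isSalem (m := 4) (Or.inr rfl) (by exact_mod_cast hβ) h2 hs1 hs, ?_, hs, ?_⟩
  · rw [hs]
    exact splits_two hβ
  · intro t ht hsp
    refine le_of_trace hs1 ht.2.1 ?_
    rw [hs]
    exact lower_two ht hsp

end SalemSp
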