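import Pool.Agent.Lib.MP_9599cf_ntS.Bound
import Pool.Agent.Lib.MP_9599cf_nt.GDick

/-! # A lower bound for Salem numbers in terms of the local degrees of the trace field -/

set_option autoImplicit false

namespace SalemSp

open Polynomial IntermediateField NumberField SalemAb

theorem dickson_prime_pow {R : Type*} [CommRing R] (p : ℕ) [Fact p.Prime] [CharP R p] (k : ℕ) :
    dickson 1 (1 : R) (p ^ k) = X ^ (p ^ k) := by
  induction k with
  | zero => simp [dickson_one]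
  | succ k ih =>
    rw [pow_succ, dickson_one_one_mul, ih, dickson_one_one_charP R p, X_pow_comp, ← pow_mul,
      mul_comm]

theorem dvd_Dk_pow {A : Type} [CommRing A] (p : ℕ) [Fact p.Prime] (k : ℕ) (x : A) :
    (p : A) ∣ aeval x (Dk (p ^ k)) - x ^ (p ^ k) := by
  have h1 : (Dk (p ^ k)).map (Int.castRingHom (ZMod p)) = X ^ (p ^ k) := by
    rw [Dk, map_dickson]
    simpa using dickson_prime_pow (R := ZMod p) p k
  have h2 : (Dk (p ^ k) - X ^ (p ^ k)).map (Int.castRingHom (ZMod p)) = 0 := by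
    rw [Polynomial.map_sub, h1]
    simp
  have h3 : (C (p : ℤ)) ∣ Dk (p ^ k) - X ^ (p ^ k) := by
    rw [Polynomial.C_dvd_iff_dvd_coeff]
    intro i
    have h4 := congrArg (fun q => Polynomial.coeff q i) h2
    simp only [coeff_map, coeff_zero] at h4
    rw [eq_intCast, ZMod.intCast_zmod_eq_zero_iff_dvd] at h4
    exact h4
  obtain ⟨Q, hQ⟩ := h3
  refine ⟨aeval x Q, ?_⟩
  have h5 : aeval x (Dk (p ^ k) - X ^ (p ^ k)) = aeval x (C (p : ℤ) * Q) := by rw [hQ]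
  rw [map_sub, map_mul, map_pow, aeval_X] at h5
  rw [h5]
  simp

theorem Dk_lt {t : ℝ} (ht : 1 < t) {m n : ℕ} (hmn : m < n) :
    aeval (t + t⁻¹) (Dk m) < aeval (t + t⁻¹) (Dk n) := by
  have h0 : 0 < t := by linarith
  rw [aeval_Dk t t⁻¹ (mul_inv_cancel₀ h0.ne'), aeval_Dk t t⁻¹ (mul_inv_cancel₀ h0.ne')]
  have h1 : t ^ m < t ^ n := pow_lt_pow_right₀ ht hmn
  have h2 : 1 ≤ t ^ m := one_le_pow₀ ht.le
  have h3 : t ^ n + t⁻¹ ^ n - (t ^ m + t⁻¹ ^ m) =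
      (t ^ n - t ^ m) * (t ^ n * t ^ m - 1) / (t ^ n * t ^ m) := by
    rw [inv_pow, inv_pow]
    field_simp
    ring
  have h4 : 0 < (t ^ n - t ^ m) * (t ^ n * t ^ m - 1) / (t ^ n * t ^ m) := by
    have h5 : 0 < t ^ n * t ^ m - 1 := by nlinarith
    have h6 : 0 < t ^ n - t ^ m := by linarith
    positivity
  linarith

/-- If `p` divides `x ^ (p ^ b) - x ^ (p ^ a)` for all integers `x` of the trace field (of degree
`d`), then `4 p ^ d ≤ 4 ^ d (t ^ (p ^ b) + t ^ (- p ^ b) - t ^ (p ^ a) - t ^ (- p ^ a))`. -/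
theorem local_growth {t : ℝ} (h : IsSalem t) {p : ℕ} (hp : p.Prime) {a b : ℕ} (hab : a < b)
    (hx : ∀ x : 𝓞 ℚ⟮t + t⁻¹⟯, (p : 𝓞 ℚ⟮t + t⁻¹⟯) ∣ x ^ (p ^ b) - x ^ (p ^ a)) :
    4 * (p : ℝ) ^ (minpoly ℚ (t + t⁻¹)).natDegree ≤
      4 ^ (minpoly ℚ (t + t⁻¹)).natDegree *
        (t ^ (p ^ b) + t⁻¹ ^ (p ^ b) - (t ^ (p ^ a) + t⁻¹ ^ (p ^ a))) := by
  have : Fact p.Prime := ⟨hp⟩
  have ht := h.2.1
  have h0 : t ≠ 0 := by linarith
  have hM : (p : 𝓞 ℚ⟮t + t⁻¹⟯) ∣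
      aeval (genO (isIntegral_trace h)) (Dk (p ^ b) - Dk (p ^ a)) := by
    rw [map_sub]
    have e : aeval (genO (isIntegral_trace h)) (Dk (p ^ b)) -
        aeval (genO (isIntegral_trace h)) (Dk (p ^ a)) =
        (aeval (genO (isIntegral_trace h)) (Dk (p ^ b)) - genO (isIntegral_trace h) ^ (p ^ b)) +
        (genO (isIntegral_trace h) ^ (p ^ b) - genO (isIntegral_trace h) ^ (p ^ a)) -
        (aeval (genO (isIntegral_trace h)) (Dk (p ^ a)) - genO (isIntegral_trace h) ^ (p ^ a)) := by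
      ring
    rw [e]
    exact dvd_sub (dvd_add (dvd_Dk_pow p b _) (hx _)) (dvd_Dk_pow p a _)
  have hlt := Dk_lt ht (Nat.pow_lt_pow_right hp.one_lt hab)
  have hval : aeval (t + t⁻¹) (Dk (p ^ b) - Dk (p ^ a)) =
      t ^ (p ^ b) + t⁻¹ ^ (p ^ b) - (t ^ (p ^ a) + t⁻¹ ^ (p ^ a)) := by
    rw [map_sub, aeval_Dk t t⁻¹ (mul_inv_cancel₀ h0), aeval_Dk t t⁻¹ (mul_inv_cancel₀ h0)]
  have hpos : 0 < aeval (t + t⁻¹) (Dk (p ^ b) - Dk (p ^ a)) := by
    rw [map_sub]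
    linarith
  have h1 := prod_bound h (Dk (p ^ b) - Dk (p ^ a)) p hM hpos.ne' 4 (fun x hx2 => by
    rw [map_sub]
    have h2 := abs_le.1 (Dk_le hx2 (p ^ b))
    have h3 := abs_le.1 (Dk_le hx2 (p ^ a))
    rw [abs_le]
    constructor <;> linarith [h2.1, h2.2, h3.1, h3.2])
  rw [abs_of_pos hpos, hval] at h1
  have hd : 0 < (minpoly ℚ (t + t⁻¹)).natDegree :=
    minpoly.natDegree_pos (isIntegral_trace h).tower_top
  obtain ⟨k, hk⟩ := Nat.exists_eq_succ_of_ne_zero hd.ne'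
  rw [hk] at h1 ⊢
  rw [Nat.succ_sub_one] at h1
  rw [pow_succ (4 : ℝ) k]
  linarith

end SalemSp
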